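import Pool.Agent.Helper30_SkewP4.Stmts

/-!
# SKEW, modules OPR and OPB (helper91)
-/

set_option autoImplicit false

open scoped TensorProduct

namespace Pool.Agent.SkewP4.H91

section gen

variable {C : Type} [CommRing C] [Algebra ℂ C]

theorem ext_t {M : Type*} [AddCommGroup M] [Module ℂ M] (F G : (C ⊗[ℂ] E) →ₗ[ℂ] M)
    (h : ∀ a w, F (a ⊗ₜ[ℂ] w) = G (a ⊗ₜ[ℂ] w)) (t : C ⊗[ℂ] E) : F t = G t := by
  have : F = G := TensorProduct.ext' h
  rw [this]

theorem opPsi_tmul (f : Fin 5 → (C →ₗ[ℂ] C)) (c : Fin 5 → Ix) (a : C) (w : E) :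
    opPsi f c (a ⊗ₜ[ℂ] w) = ∑ j, f j a ⊗ₜ[ℂ] psi (c j) w := by
  simp [opPsi, LinearMap.sum_apply]

theorem opPhi_tmul (f : Fin 5 → (C →ₗ[ℂ] C)) (c : Fin 5 → Ix) (a : C) (w : E) :
    opPhi f c (a ⊗ₜ[ℂ] w) = ∑ j, f j a ⊗ₜ[ℂ] phi (c j) w := by
  simp [opPhi, LinearMap.sum_apply]

theorem psi_psi_comm (h1 : Ext1Stmt) (f g : Fin 5 → (C →ₗ[ℂ] C)) (c d : Fin 5 → Ix)
    (hc : ∀ j k a, f j (g k a) = g k (f j a)) (t : C ⊗[ℂ] E) :
    opPsi f c (opPsi g d t) = -opPsi g d (opPsi f c t) := by
  refine ext_t (opPsi f c ∘ₗ opPsi g d) (-(opPsi g d ∘ₗ opPsi f c)) (fun a w => ?_) t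
  simp only [LinearMap.comp_apply, LinearMap.neg_apply, opPsi_tmul, map_sum]
  rw [Finset.sum_comm, ← Finset.sum_neg_distrib]
  refine Finset.sum_congr rfl fun j _ => ?_
  rw [← Finset.sum_neg_distrib]
  refine Finset.sum_congr rfl fun k _ => ?_
  rw [hc, h1.psi_psi, TensorProduct.tmul_neg]

theorem phi_phi_comm (h1 : Ext1Stmt) (f g : Fin 5 → (C →ₗ[ℂ] C)) (c d : Fin 5 → Ix)
    (hc : ∀ j k a, f j (g k a) = g k (f j a)) (t : C ⊗[ℂ] E) :
    opPhi f c (opPhi g d t) = -opPhi g d (opPhi f c t) := by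
  refine ext_t (opPhi f c ∘ₗ opPhi g d) (-(opPhi g d ∘ₗ opPhi f c)) (fun a w => ?_) t
  simp only [LinearMap.comp_apply, LinearMap.neg_apply, opPhi_tmul, map_sum]
  rw [Finset.sum_comm, ← Finset.sum_neg_distrib]
  refine Finset.sum_congr rfl fun j _ => ?_
  rw [← Finset.sum_neg_distrib]
  refine Finset.sum_congr rfl fun k _ => ?_
  rw [hc, h1.phi_phi, TensorProduct.tmul_neg]

theorem self_neg {M : Type*} [AddCommGroup M] [Module ℂ M] {x : M} (h : x = -x) : x = 0 := by
  have h1 : (2 : ℂ) • x = 0 := by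
    rw [two_smul]
    nth_rewrite 2 [h]
    exact add_neg_cancel x
  exact (smul_eq_zero.1 h1).resolve_left two_ne_zero

/-- disjoint families -/
theorem phi_psi_disj (h1 : Ext1Stmt) (f g : Fin 5 → (C →ₗ[ℂ] C)) (c d : Fin 5 → Ix)
    (hcd : ∀ j k, c j ≠ d k) (hc : ∀ j k a, f j (g k a) = g k (f j a)) (t : C ⊗[ℂ] E) :
    opPhi f c (opPsi g d t) = -opPsi g d (opPhi f c t) := by
  refine ext_t (opPhi f c ∘ₗ opPsi g d) (-(opPsi g d ∘ₗ opPhi f c)) (fun a w => ?_) t
  simp only [LinearMap.comp_apply, LinearMap.neg_apply, opPhi_tmul, opPsi_tmul, map_sum]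
  rw [Finset.sum_comm, ← Finset.sum_neg_distrib]
  refine Finset.sum_congr rfl fun j _ => ?_
  rw [← Finset.sum_neg_distrib]
  refine Finset.sum_congr rfl fun k _ => ?_
  have := h1.phi_psi (c j) (d k) w
  rw [if_neg (hcd j k)] at this
  rw [hc, eq_neg_of_add_eq_zero_left this, TensorProduct.tmul_neg]

/-- equal families -/
theorem phi_psi_same (h1 : Ext1Stmt) (f g : Fin 5 → (C →ₗ[ℂ] C)) (c : Fin 5 → Ix)
    (hinj : Function.Injective c) (a : C) (w : E) :
    opPhi f c (opPsi g c (a ⊗ₜ[ℂ] w)) + opPsi g c (opPhi f c (a ⊗ₜ[ℂ] w)) =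
      (∑ j, f j (g j a)) ⊗ₜ[ℂ] w +
        ∑ j, ∑ k, (g k (f j a) - f j (g k a)) ⊗ₜ[ℂ] psi (c k) (phi (c j) w) := by
  simp only [opPhi_tmul, opPsi_tmul, map_sum]
  rw [Finset.sum_comm, TensorProduct.sum_tmul, ← Finset.sum_add_distrib, ← Finset.sum_add_distrib]
  refine Finset.sum_congr rfl fun j _ => ?_
  have e1 : ∀ k, f j (g k a) ⊗ₜ[ℂ] phi (c j) (psi (c k) w) =
      (if j = k then f j (g k a) ⊗ₜ[ℂ] w else 0) -
        f j (g k a) ⊗ₜ[ℂ] psi (c k) (phi (c j) w) := by
    intro k
    have := h1.phi_psi (c j) (c k) w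
    by_cases hjk : j = k
    · subst hjk
      rw [if_pos rfl] at this ⊢
      rw [eq_sub_of_add_eq this, TensorProduct.tmul_sub]
    · rw [if_neg (fun h => hjk (hinj h))] at this
      rw [if_neg hjk, eq_neg_of_add_eq_zero_left this, TensorProduct.tmul_neg, zero_sub]
  rw [Finset.sum_congr rfl fun k _ => e1 k, Finset.sum_sub_distrib, Finset.sum_ite_eq,
    if_pos (Finset.mem_univ j)]
  simp only [TensorProduct.sub_tmul, Finset.sum_sub_distrib]
  abel

theorem psi_rT (f : Fin 5 → (C →ₗ[ℂ] C)) (c : Fin 5 → Ix) (g : C →ₗ[ℂ] C)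
    (u : Fin 5 → (C →ₗ[ℂ] C)) (hc : ∀ j a, f j (g a) = g (f j a) + u j a) (t : C ⊗[ℂ] E) :
    opPsi f c (LinearMap.rTensor E g t) = LinearMap.rTensor E g (opPsi f c t) + opPsi u c t := by
  refine ext_t (opPsi f c ∘ₗ LinearMap.rTensor E g)
    (LinearMap.rTensor E g ∘ₗ opPsi f c + opPsi u c) (fun a w => ?_) t
  simp only [LinearMap.comp_apply, LinearMap.add_apply, opPsi_tmul, map_sum,
    LinearMap.rTensor_tmul]
  rw [← Finset.sum_add_distrib]
  refine Finset.sum_congr rfl fun j _ => ?_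
  rw [hc, TensorProduct.add_tmul]

theorem phi_rT (f : Fin 5 → (C →ₗ[ℂ] C)) (c : Fin 5 → Ix) (g : C →ₗ[ℂ] C)
    (u : Fin 5 → (C →ₗ[ℂ] C)) (hc : ∀ j a, f j (g a) = g (f j a) + u j a) (t : C ⊗[ℂ] E) :
    opPhi f c (LinearMap.rTensor E g t) = LinearMap.rTensor E g (opPhi f c t) + opPhi u c t := by
  refine ext_t (opPhi f c ∘ₗ LinearMap.rTensor E g)
    (LinearMap.rTensor E g ∘ₗ opPhi f c + opPhi u c) (fun a w => ?_) t
  simp only [LinearMap.comp_apply, LinearMap.add_apply, opPhi_tmul, map_sum,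
    LinearMap.rTensor_tmul]
  rw [← Finset.sum_add_distrib]
  refine Finset.sum_congr rfl fun j _ => ?_
  rw [hc, TensorProduct.add_tmul]

theorem opPsi_zero (c : Fin 5 → Ix) (t : C ⊗[ℂ] E) :
    opPsi (fun _ => (0 : C →ₗ[ℂ] C)) c t = 0 := by
  simp [opPsi, LinearMap.sum_apply]

theorem opPhi_zero (c : Fin 5 → Ix) (t : C ⊗[ℂ] E) :
    opPhi (fun _ => (0 : C →ₗ[ℂ] C)) c t = 0 := by
  simp [opPhi, LinearMap.sum_apply]

/-- membership -/
theorem tmul_mem {p q : ℕ} (a : C) {w : E} (hw : w ∈ Epq p q) : a ⊗ₜ[ℂ] w ∈ TP C p q :=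
  ⟨a ⊗ₜ[ℂ] ⟨w, hw⟩, by simp⟩

theorem TP_ind {p q : ℕ} {P : (C ⊗[ℂ] E) → Prop} (h0 : P 0)
    (ha : ∀ s t, P s → P t → P (s + t)) (ht : ∀ a, ∀ w ∈ Epq p q, P (a ⊗ₜ[ℂ] w))
    {t : C ⊗[ℂ] E} (h : t ∈ TP C p q) : P t := by
  obtain ⟨s, rfl⟩ := h
  induction s using TensorProduct.induction_on with
  | zero => rw [map_zero]; exact h0
  | tmul a w => rw [LinearMap.lTensor_tmul]; exact ht a w w.2
  | add s t hs ht' => rw [map_add]; exact ha _ _ hs ht'

theorem opPsi_mem (f : Fin 5 → (C →ₗ[ℂ] C)) (c : Fin 5 → Ix) {p q p' q' : ℕ}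
    (h : ∀ j, ∀ w ∈ Epq p q, psi (c j) w ∈ Epq p' q') {t : C ⊗[ℂ] E} (ht : t ∈ TP C p q) :
    opPsi f c t ∈ TP C p' q' := by
  refine TP_ind (P := fun t => opPsi f c t ∈ TP C p' q') ?_ ?_ ?_ ht
  · rw [map_zero]; exact zero_mem _
  · intro s t hs ht; rw [map_add]; exact add_mem hs ht
  · intro a w hw
    rw [opPsi_tmul]
    exact sum_mem fun j _ => tmul_mem _ (h j w hw)

theorem opPhi_mem (f : Fin 5 → (C →ₗ[ℂ] C)) (c : Fin 5 → Ix) {p q p' q' : ℕ}
    (h : ∀ j, ∀ w ∈ Epq p q, phi (c j) w ∈ Epq p' q') {t : C ⊗[ℂ] E} (ht : t ∈ TP C p q) :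
    opPhi f c t ∈ TP C p' q' := by
  refine TP_ind (P := fun t => opPhi f c t ∈ TP C p' q') ?_ ?_ ?_ ht
  · rw [map_zero]; exact zero_mem _
  · intro s t hs ht; rw [map_add]; exact add_mem hs ht
  · intro a w hw
    rw [opPhi_tmul]
    exact sum_mem fun j _ => tmul_mem _ (h j w hw)

theorem opPhi_vanish (f : Fin 5 → (C →ₗ[ℂ] C)) (c : Fin 5 → Ix) {p q : ℕ}
    (h : ∀ j, ∀ w ∈ Epq p q, phi (c j) w = 0) {t : C ⊗[ℂ] E} (ht : t ∈ TP C p q) :
    opPhi f c t = 0 := by
  refine TP_ind (P := fun t => opPhi f c t = 0) ?_ ?_ ?_ ht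
  · rw [map_zero]
  · intro s t hs ht; rw [map_add, hs, ht, add_zero]
  · intro a w hw
    rw [opPhi_tmul]
    exact Finset.sum_eq_zero fun j _ => by rw [h j w hw, TensorProduct.tmul_zero]

end gen

/-! ### operators on `R` -/

theorem px_apply (j : Fin 5) (a : R) : px j a = MvPolynomial.pderiv (Sum.inl j) a := rfl
theorem py_apply (j : Fin 5) (a : R) : py j a = MvPolynomial.pderiv (Sum.inr j) a := rfl
theorem mx_apply (j : Fin 5) (a : R) : mx j a = MvPolynomial.X (Sum.inl j) * a := rfl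
theorem my_apply (j : Fin 5) (a : R) : my j a = MvPolynomial.X (Sum.inr j) * a := rfl

theorem pd_comm (i j : Ix) (a : R) : MvPolynomial.pderiv i (MvPolynomial.pderiv j a) =
    MvPolynomial.pderiv j (MvPolynomial.pderiv i a) := by
  have h : ⁅(MvPolynomial.pderiv i : Derivation ℂ R R), (MvPolynomial.pderiv j : Derivation ℂ R R)⁆
      = 0 := by
    refine MvPolynomial.derivation_ext fun k => ?_
    rw [Derivation.commutator_apply, MvPolynomial.pderiv_X, MvPolynomial.pderiv_X,
      Derivation.coe_zero, Pi.zero_apply]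
    simp only [Pi.single_apply]
    split_ifs <;> simp
  have h2 := congrArg (fun D : Derivation ℂ R R => D a) h
  simp only [Derivation.commutator_apply, Derivation.coe_zero, Pi.zero_apply] at h2
  exact sub_eq_zero.1 h2

theorem mx_mx (j k : Fin 5) (a : R) : mx j (mx k a) = mx k (mx j a) := by
  simp only [mx_apply]; ring

theorem my_my (j k : Fin 5) (a : R) : my j (my k a) = my k (my j a) := by
  simp only [my_apply]; ring

theorem mx_my (j k : Fin 5) (a : R) : mx j (my k a) = my k (mx j a) := by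
  simp only [mx_apply, my_apply]; ring

theorem py_py (j k : Fin 5) (a : R) : py j (py k a) = py k (py j a) := pd_comm _ _ a

theorem px_px (j k : Fin 5) (a : R) : px j (px k a) = px k (px j a) := pd_comm _ _ a

theorem px_py (j k : Fin 5) (a : R) : px j (py k a) = py k (px j a) := pd_comm _ _ a

theorem px_mx (j k : Fin 5) (a : R) : px j (mx k a) = mx k (px j a) + if j = k then a else 0 := by
  simp only [px_apply, mx_apply, Derivation.leibniz, MvPolynomial.pderiv_X, smul_eq_mul,
    Pi.single_apply, Sum.inl.injEq]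
  congr 1
  by_cases h : j = k
  · rw [if_pos h, if_pos h.symm, mul_one]
  · rw [if_neg h, if_neg (Ne.symm h), mul_zero]

theorem py_my (j k : Fin 5) (a : R) : py j (my k a) = my k (py j a) + if j = k then a else 0 := by
  simp only [py_apply, my_apply, Derivation.leibniz, MvPolynomial.pderiv_X, smul_eq_mul,
    Pi.single_apply, Sum.inr.injEq]
  congr 1
  by_cases h : j = k
  · rw [if_pos h, if_pos h.symm, mul_one]
  · rw [if_neg h, if_neg (Ne.symm h), mul_zero]

theorem px_my (j k : Fin 5) (a : R) : px j (my k a) = my k (px j a) := by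
  simp [px_apply, my_apply, Derivation.leibniz, MvPolynomial.pderiv_X]

theorem py_mx (j k : Fin 5) (a : R) : py j (mx k a) = mx k (py j a) := by
  simp [py_apply, mx_apply, Derivation.leibniz, MvPolynomial.pderiv_X]

theorem Ny_eq (a : R) : Ny a = ∑ j, my j (py j a) := by
  simp [Ny, my, py, LinearMap.sum_apply]

theorem Nx_eq (a : R) : Nx a = ∑ j, mx j (px j a) := by
  simp [Nx, mx, px, LinearMap.sum_apply]

theorem rho_eq (a : R) : rhoR * a = ∑ j, mx j (my j a) := by
  simp only [rhoR, mx_apply, my_apply, Finset.sum_mul, mul_assoc]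

theorem Ny_mx (k : Fin 5) (a : R) : mx k (Ny a) = Ny (mx k a) := by
  rw [Ny_eq, Ny_eq, map_sum]
  refine Finset.sum_congr rfl fun j _ => ?_
  rw [mx_my k j, py_mx j k]

theorem Ny_my (k : Fin 5) (a : R) : my k (Ny a) = Ny (my k a) - my k a := by
  rw [Ny_eq, Ny_eq, map_sum, eq_sub_iff_add_eq]
  have e : ∀ j, my j (py j (my k a)) = my k (my j (py j a)) + if j = k then my j a else 0 := by
    intro j
    rw [py_my, map_add, my_my j k]
    congr 1
    split_ifs <;> simp
  rw [Finset.sum_congr rfl fun j _ => e j, Finset.sum_add_distrib]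
  simp only [Finset.sum_ite_eq', Finset.mem_univ, if_true]

theorem Ny_py (k : Fin 5) (a : R) : py k (Ny a) = Ny (py k a) + py k a := by
  rw [Ny_eq, Ny_eq, map_sum]
  have e : ∀ j, py k (my j (py j a)) = my j (py j (py k a)) + if k = j then py j a else 0 := by
    intro j
    rw [py_my, py_py k j]
  rw [Finset.sum_congr rfl fun j _ => e j, Finset.sum_add_distrib]
  simp only [Finset.sum_ite_eq, Finset.mem_univ, if_true]

theorem Ny_px (k : Fin 5) (a : R) : px k (Ny a) = Ny (px k a) := by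
  rw [Ny_eq, Ny_eq, map_sum]
  refine Finset.sum_congr rfl fun j _ => ?_
  rw [px_my k j, px_py k j]

theorem Ny_rho (a : R) : rhoR * Ny a = Ny (rhoR * a) - rhoR * a := by
  rw [rho_eq, rho_eq, map_sum, ← Finset.sum_sub_distrib]
  refine Finset.sum_congr rfl fun j _ => ?_
  rw [Ny_my, map_sub, Ny_mx]

theorem py_rho (k : Fin 5) (a : R) : py k (rhoR * a) = rhoR * py k a + mx k a := by
  rw [rho_eq, rho_eq, map_sum]
  have e : ∀ j, py k (mx j (my j a)) = mx j (my j (py k a)) + if k = j then mx j a else 0 := by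
    intro j
    rw [py_mx, py_my, map_add]
    congr 1
    split_ifs <;> simp
  rw [Finset.sum_congr rfl fun j _ => e j, Finset.sum_add_distrib]
  simp only [Finset.sum_ite_eq, Finset.mem_univ, if_true]

theorem rho_ne : rhoR ≠ 0 := by
  intro h
  have := congrArg (MvPolynomial.eval (fun _ => (1 : ℂ))) h
  simp [rhoR] at this

/-- OPR -/
theorem opr (h1 : Ext1Stmt) : OprStmt where
  DD t := self_neg (psi_psi_comm h1 py py _ _ py_py t)
  EE t := self_neg (psi_psi_comm h1 mx mx _ _ mx_mx t)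
  KK t := self_neg (phi_phi_comm h1 my my _ _ my_my t)
  II t := self_neg (phi_phi_comm h1 mx mx _ _ mx_mx t)
  DE t := psi_psi_comm h1 py mx _ _ py_mx t
  EK t := by
    refine ext_t (opE ∘ₗ opK + opK ∘ₗ opE) opRho (fun a w => ?_) t
    have h := phi_psi_same h1 my mx Sum.inr Sum.inr_injective a w
    simp only [mx_my, sub_self, TensorProduct.zero_tmul, Finset.sum_const_zero, add_zero] at h
    rw [LinearMap.add_apply, LinearMap.comp_apply, LinearMap.comp_apply, add_comm]
    refine h.trans ?_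
    rw [opRho, LinearMap.rTensor_tmul, LinearMap.mulLeft_apply, rho_eq]
    simp only [mx_my]
  KS t := phi_phi_comm h1 my px _ _ (fun j k a => (px_my k j a).symm) t
  DI t := by
    rw [eq_neg_iff_add_eq_zero, add_comm, ← eq_neg_iff_add_eq_zero]
    exact phi_psi_disj h1 mx py _ _ (by simp) (fun j k a => (py_mx k j a).symm) t
  EI t := by
    rw [eq_neg_iff_add_eq_zero, add_comm, ← eq_neg_iff_add_eq_zero]
    exact phi_psi_disj h1 mx mx _ _ (by simp) mx_mx t
  KI t := phi_phi_comm h1 my mx _ _ (fun j k a => (mx_my k j a).symm) t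
  DxK t := by
    rw [eq_neg_iff_add_eq_zero, add_comm, ← eq_neg_iff_add_eq_zero]
    exact phi_psi_disj h1 my px _ _ (by simp) (fun j k a => (px_my k j a).symm) t
  rho_E t := by
    have := psi_rT mx Sum.inr (LinearMap.mulLeft ℂ rhoR) (fun _ => 0) (fun j a => by
      simp only [mx, LinearMap.mulLeft_apply, LinearMap.zero_apply]; ring) t
    rwa [opPsi_zero, add_zero] at this
  rho_K t := by
    have := phi_rT my Sum.inr (LinearMap.mulLeft ℂ rhoR) (fun _ => 0) (fun j a => by
      simp only [my, LinearMap.mulLeft_apply, LinearMap.zero_apply]; ring) t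
    rwa [opPhi_zero, add_zero] at this
  rho_I t := by
    have := phi_rT mx Sum.inl (LinearMap.mulLeft ℂ rhoR) (fun _ => 0) (fun j a => by
      simp only [mx, LinearMap.mulLeft_apply, LinearMap.zero_apply]; ring) t
    rwa [opPhi_zero, add_zero] at this
  D_rho t := by
    have := psi_rT py Sum.inr (LinearMap.mulLeft ℂ rhoR) mx (fun j a => by
      simp only [LinearMap.mulLeft_apply]; exact py_rho j a) t
    rw [add_comm]; exact this
  Ny_E t := by
    have := psi_rT mx Sum.inr Ny (fun _ => 0) (fun j a => by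
      rw [LinearMap.zero_apply, add_zero, Ny_mx]) t
    rw [opPsi_zero, add_zero] at this
    exact this.symm
  Ny_D t := by
    have := psi_rT py Sum.inr Ny py (fun j a => Ny_py j a) t
    exact eq_sub_of_add_eq this.symm
  Ny_K t := by
    have := phi_rT my Sum.inr Ny (fun j => -my j) (fun j a => by
      rw [Ny_my, LinearMap.neg_apply, sub_eq_add_neg]) t
    have e : opPhi (fun j => -my j) Sum.inr t = -opK t := by
      unfold opPhi opK opPhi
      rw [LinearMap.sum_apply, LinearMap.sum_apply, ← Finset.sum_neg_distrib]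
      refine Finset.sum_congr rfl fun j _ => ?_
      have h2 : TensorProduct.map (-my j) (phi (Sum.inr j)) =
          -TensorProduct.map (my j) (phi (Sum.inr j)) := by
        apply TensorProduct.ext'
        intro a w
        rw [TensorProduct.map_tmul, LinearMap.neg_apply, LinearMap.neg_apply,
          TensorProduct.map_tmul, TensorProduct.neg_tmul]
      rw [h2]; rfl
    rw [e] at this
    exact eq_add_of_sub_eq (by rw [sub_eq_add_neg]; exact this.symm)
  Ny_I t := by
    have := phi_rT mx Sum.inl Ny (fun _ => 0) (fun j a => by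
      rw [LinearMap.zero_apply, add_zero, Ny_mx]) t
    rw [opPhi_zero, add_zero] at this
    exact this.symm
  Ny_S t := by
    have := phi_rT px Sum.inr Ny (fun _ => 0) (fun j a => by
      rw [LinearMap.zero_apply, add_zero, Ny_px]) t
    rw [opPhi_zero, add_zero] at this
    exact this.symm
  Ny_Dx t := by
    have := psi_rT px Sum.inl Ny (fun _ => 0) (fun j a => by
      rw [LinearMap.zero_apply, add_zero, Ny_px]) t
    rw [opPsi_zero, add_zero] at this
    exact this.symm
  Ny_rho t := by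
    refine ext_t (opNy ∘ₗ opRho) (opRho ∘ₗ opNy + opRho) (fun a w => ?_) t
    simp only [LinearMap.comp_apply, LinearMap.add_apply, opNy, opRho, LinearMap.rTensor_tmul,
      LinearMap.mulLeft_apply]
    rw [← TensorProduct.add_tmul, Ny_rho, sub_add_cancel]
  rho_inj t ht := by
    have h : Function.Injective (LinearMap.rTensor E (LinearMap.mulLeft ℂ rhoR)) := by
      apply Module.Flat.rTensor_preserves_injective_linearMap
      intro a b hab
      exact mul_left_cancel₀ rho_ne hab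
    apply h
    rw [map_zero]
    exact ht

/-- OPB -/
theorem opb (h1 : Ext1Stmt) (h2 : Ext2Stmt) : OpbStmt where
  DK p q t ht := by
    refine TP_ind (P := fun t => opD (opK t) + opK (opD t) = opNy t + (q : ℂ) • t) ?_ ?_ ?_ ht
    · simp
    · intro s t hs ht
      simp only [map_add, smul_add]
      rw [add_add_add_comm, hs, ht, add_add_add_comm]
    · intro a w hw
      have h := phi_psi_same h1 my py Sum.inr Sum.inr_injective a w
      rw [add_comm]
      refine h.trans ?_
      rw [opNy, LinearMap.rTensor_tmul, Ny_eq]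
      congr 1
      have e : ∀ j k, (py k (my j a) - my j (py k a)) ⊗ₜ[ℂ] psi (Sum.inr k) (phi (Sum.inr j) w) =
          if k = j then a ⊗ₜ[ℂ] psi (Sum.inr j) (phi (Sum.inr j) w) else 0 := by
        intro j k
        rw [py_my, add_sub_cancel_left]
        split_ifs with hkj
        · rw [hkj]
        · rw [TensorProduct.zero_tmul]
      simp only [e, Finset.sum_ite_eq', Finset.mem_univ, if_true]
      rw [← TensorProduct.tmul_sum, h2.num_y p q w hw, TensorProduct.tmul_smul]
  ES p q t ht := by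
    refine TP_ind (P := fun t => opE (opS t) + opS (opE t) = opNx t + ((5 : ℂ) - q) • t)
      ?_ ?_ ?_ ht
    · simp
    · intro s t hs ht
      simp only [map_add, smul_add]
      rw [add_add_add_comm, hs, ht, add_add_add_comm]
    · intro a w hw
      have h := phi_psi_same h1 px mx Sum.inr Sum.inr_injective a w
      rw [add_comm]
      refine h.trans ?_
      rw [opNx, LinearMap.rTensor_tmul, Nx_eq]
      have e : ∀ j k, (mx k (px j a) - px j (mx k a)) ⊗ₜ[ℂ] psi (Sum.inr k) (phi (Sum.inr j) w) =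
          if j = k then -(a ⊗ₜ[ℂ] psi (Sum.inr j) (phi (Sum.inr j) w)) else 0 := by
        intro j k
        rw [px_mx, sub_add_cancel_left]
        split_ifs with hkj
        · rw [hkj, TensorProduct.neg_tmul]
        · rw [neg_zero, TensorProduct.zero_tmul]
      have e2 : ∀ j, px j (mx j a) = mx j (px j a) + a := by
        intro j
        rw [px_mx, if_pos rfl]
      simp only [e, e2, Finset.sum_ite_eq, Finset.mem_univ, if_true, Finset.sum_add_distrib,
        Finset.sum_const, Finset.card_univ, Fintype.card_fin]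
      rw [Finset.sum_neg_distrib, ← TensorProduct.tmul_sum, h2.num_y p q w hw,
        TensorProduct.tmul_smul, TensorProduct.add_tmul, sub_smul, add_assoc, sub_eq_add_neg]
      congr 2
      rw [← TensorProduct.smul_tmul']
      simp only [← Nat.cast_smul_eq_nsmul ℂ]
      norm_num
  IDx p q t ht := by
    refine TP_ind (P := fun t => opI (opDx t) + opDx (opI t) = opNx t + (p : ℂ) • t)
      ?_ ?_ ?_ ht
    · simp
    · intro s t hs ht
      simp only [map_add, smul_add]
      rw [add_add_add_comm, hs, ht, add_add_add_comm]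
    · intro a w hw
      have h := phi_psi_same h1 mx px Sum.inl Sum.inl_injective a w
      refine h.trans ?_
      rw [opNx, LinearMap.rTensor_tmul, Nx_eq]
      congr 1
      have e : ∀ j k, (px k (mx j a) - mx j (px k a)) ⊗ₜ[ℂ] psi (Sum.inl k) (phi (Sum.inl j) w) =
          if k = j then a ⊗ₜ[ℂ] psi (Sum.inl j) (phi (Sum.inl j) w) else 0 := by
        intro j k
        rw [px_mx, add_sub_cancel_left]
        split_ifs with hkj
        · rw [hkj]
        · rw [TensorProduct.zero_tmul]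
      simp only [e, Finset.sum_ite_eq', Finset.mem_univ, if_true]
      rw [← TensorProduct.tmul_sum, h2.num_x p q w hw, TensorProduct.tmul_smul]
  E_mem p q t ht := opPsi_mem _ _ (fun j w hw => h2.psi_y p q j w hw) ht
  D_mem p q t ht := opPsi_mem _ _ (fun j w hw => h2.psi_y p q j w hw) ht
  Dx_mem p q t ht := opPsi_mem _ _ (fun j w hw => h2.psi_x p q j w hw) ht
  K_mem p q t ht := opPhi_mem _ _ (fun j w hw => h2.phi_y p q j w hw) ht
  S_mem p q t ht := opPhi_mem _ _ (fun j w hw => h2.phi_y p q j w hw) ht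
  I_mem p q t ht := opPhi_mem _ _ (fun j w hw => h2.phi_x p q j w hw) ht
  K_zero p t ht := opPhi_vanish _ _ (fun j w hw => h2.phi_y_zero p j w hw) ht
  S_zero p t ht := opPhi_vanish _ _ (fun j w hw => h2.phi_y_zero p j w hw) ht
  I_zero q t ht := opPhi_vanish _ _ (fun j w hw => h2.phi_x_zero q j w hw) ht
  r_mem p q t f ht := by
    refine TP_ind (P := fun t => LinearMap.rTensor E f t ∈ TP R p q) ?_ ?_ ?_ ht
    · rw [map_zero]; exact zero_mem _
    · intro s t hs ht; rw [map_add]; exact add_mem hs ht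
    · intro a w hw
      rw [LinearMap.rTensor_tmul]
      exact tmul_mem _ hw

end Pool.Agent.SkewP4.H91
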